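import Mathlib

/-!
# Iterated tree maps

Conditions of the Sacks iteration and of the Miller iteration as elements of one explicit monoid
of continuous maps.
-/

open Set

set_option linter.unusedSectionVars false

namespace Pool.Agent.F3

/-! ## Maps of the tree of finite sequences -/

/-- Initial segment of length `n` of a sequence. -/
def pre {A : Type} (z : ℕ → A) (n : ℕ) : List A := (List.range n).map z

/-- The finite sequence `l` is an initial segment of the infinite sequence `z`. -/
def IsInit {A : Type} (l : List A) (z : ℕ → A) : Prop := l = pre z l.length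

/-- The infinite sequence `l` followed by `z`. -/
def app {A : Type} (l : List A) (z : ℕ → A) : ℕ → A := fun n =>
  if h : n < l.length then l[n] else z (n - l.length)

/-- Maps of the tree of finite sequences: the node `t σ` is a splitting node, and its successor
`a σ x` leads to `t (σ ++ [x])`. -/
@[ext (iff := false)]
structure TMap (A : Type) [LinearOrder A] where
  t : List A → List A
  a : List A → A → A
  mono : ∀ σ, StrictMono (a σ)
  step : ∀ σ x, t σ ++ [a σ x] <+: t (σ ++ [x])

section TM
variable {A : Type} [LinearOrder A]

theorem TMap.pre_mono (f : TMap A) {σ τ : List A} (h : σ <+: τ) : f.t σ <+: f.t τ := by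
  obtain ⟨ρ, rfl⟩ := h
  induction ρ using List.reverseRecOn with
  | nil => simp
  | append_singleton ρ x ih =>
    refine ih.trans ?_
    have := f.step (σ ++ ρ) x
    rw [← List.append_assoc]
    exact (List.prefix_append _ _).trans this

theorem TMap.ext_t {f g : TMap A} (h : f.t = g.t) : f = g := by
  have ha : f.a = g.a := by
    funext σ x
    have h1 := f.step σ x
    have h2 := g.step σ x
    rw [← h] at h2
    have h3 := List.prefix_of_prefix_length_le h1 h2 (by simp)
    have h4 := h3.eq_of_length (by simp)
    simpa using h4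
  cases f; cases g
  simp only at h ha
  subst h ha
  rfl

/-- Composition. -/
instance : Mul (TMap A) where
  mul f g :=
    { t := fun σ => f.t (g.t σ)
      a := fun σ x => f.a (g.t σ) (g.a σ x)
      mono := fun σ => (f.mono _).comp (g.mono σ)
      step := fun σ x => (f.step (g.t σ) (g.a σ x)).trans (f.pre_mono (g.step σ x)) }

instance : One (TMap A) where
  one :=
    { t := id
      a := fun _ => id
      mono := fun _ => strictMono_id
      step := fun _ _ => List.prefix_rfl }

@[simp] theorem TMap.mul_t (f g : TMap A) (σ : List A) : (f * g).t σ = f.t (g.t σ) := rfl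
@[simp] theorem TMap.one_t (σ : List A) : (1 : TMap A).t σ = σ := rfl
@[simp] theorem TMap.mul_a (f g : TMap A) (σ : List A) (x : A) :
    (f * g).a σ x = f.a (g.t σ) (g.a σ x) := rfl
@[simp] theorem TMap.one_a (σ : List A) (x : A) : (1 : TMap A).a σ x = x := rfl

instance : Monoid (TMap A) where
  mul_assoc _ _ _ := rfl
  one_mul _ := rfl
  mul_one _ := rfl

/-- The map `ρ ↦ σ ++ ρ`. -/
def shift (σ : List A) : TMap A where
  t := fun ρ => σ ++ ρ
  a := fun _ => id
  mono := fun _ => strictMono_id
  step := fun ρ x => by simp

@[simp] theorem shift_t (σ ρ : List A) : (shift σ).t ρ = σ ++ ρ := rfl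

/-- Action on infinite sequences. -/
def TMap.act [Inhabited A] (f : TMap A) (z : ℕ → A) : ℕ → A := fun n =>
  (f.t (pre z (n + 1))).getD n default

end TM


section TM2
variable {A : Type}

@[simp] theorem pre_length (z : ℕ → A) (n : ℕ) : (pre z n).length = n := by simp [pre]

theorem pre_succ (z : ℕ → A) (n : ℕ) : pre z (n + 1) = pre z n ++ [z n] := by
  simp [pre, List.range_succ]

@[simp] theorem pre_zero (z : ℕ → A) : pre z 0 = [] := rfl

@[simp] theorem pre_getElem (z : ℕ → A) (n i : ℕ) (h : i < (pre z n).length) :
    (pre z n)[i] = z i := by simp [pre]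

theorem pre_prefix (z : ℕ → A) {m n : ℕ} (h : m ≤ n) : pre z m <+: pre z n := by
  induction n, h using Nat.le_induction with
  | base => exact List.prefix_rfl
  | succ n _ ih => rw [pre_succ]; exact ih.trans (List.prefix_append _ _)

theorem pre_congr {z z' : ℕ → A} {n : ℕ} (h : ∀ i < n, z i = z' i) : pre z n = pre z' n := by
  unfold pre
  exact List.map_congr_left (fun i hi => h i (List.mem_range.mp hi))

theorem pre_eq_iff {z z' : ℕ → A} {n : ℕ} : pre z n = pre z' n ↔ ∀ i < n, z i = z' i := by
  refine ⟨fun h i hi => ?_, pre_congr⟩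
  have h1 : (pre z n)[i]'(by simpa using hi) = (pre z' n)[i]'(by simpa using hi) := by
    congr 1
  simpa using h1

theorem isInit_pre (z : ℕ → A) (n : ℕ) : IsInit (pre z n) z := by simp [IsInit]

theorem isInit_iff {l : List A} {z : ℕ → A} :
    IsInit l z ↔ ∀ i (h : i < l.length), l[i] = z i := by
  constructor
  · intro h i hi
    have h1 : l = pre z l.length := h
    have h2 : l[i] = (pre z l.length)[i]'(by simpa using hi) := by
      congr 1
    rw [h2]; simp
  · intro h
    refine List.ext_getElem (by simp) (fun i h1 h2 => ?_)
    rw [h i h1]; simp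

theorem IsInit.of_prefix {l l' : List A} {z : ℕ → A} (h : l <+: l') (h' : IsInit l' z) :
    IsInit l z := by
  rw [isInit_iff] at *
  intro i hi
  rw [← h' i (lt_of_lt_of_le hi h.length_le)]
  exact h.getElem hi

theorem IsInit.prefix_of_le {l l' : List A} {z : ℕ → A} (h : IsInit l z) (h' : IsInit l' z)
    (hl : l.length ≤ l'.length) : l <+: l' := by
  rw [show l = pre z l.length from h, show l' = pre z l'.length from h']
  exact pre_prefix z hl

theorem eq_of_isInit {z z' : ℕ → A} (h : ∀ n, ∃ l : List A, n ≤ l.length ∧ IsInit l z ∧ IsInit l z') :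
    z = z' := by
  funext n
  obtain ⟨l, hl, h1, h2⟩ := h (n + 1)
  rw [isInit_iff] at h1 h2
  rw [← h1 n (by omega), h2 n (by omega)]

variable [LinearOrder A] [Inhabited A]

theorem TMap.length_t (f : TMap A) (σ : List A) : (f.t []).length + σ.length ≤ (f.t σ).length := by
  induction σ using List.reverseRecOn with
  | nil => simp
  | append_singleton σ x ih =>
    have := (f.step σ x).length_le
    simp only [List.length_append, List.length_singleton] at this ⊢
    omega

theorem TMap.le_length_t (f : TMap A) (σ : List A) : σ.length ≤ (f.t σ).length := by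
  have := f.length_t σ; omega

/-- The image nodes are initial segments of the image sequence. -/
theorem TMap.isInit_act (f : TMap A) (z : ℕ → A) (n : ℕ) : IsInit (f.t (pre z n)) (f.act z) := by
  rw [isInit_iff]
  intro i hi
  have h1 : i < (f.t (pre z (i + 1))).length := by
    have := f.le_length_t (pre z (i + 1)); simp at this; omega
  unfold TMap.act
  rw [List.getD_eq_getElem _ _ h1]
  rcases le_total n (i + 1) with h | h
  · exact (f.pre_mono (pre_prefix z h)).getElem hi
  · exact ((f.pre_mono (pre_prefix z h)).getElem h1).symm

theorem TMap.isInit_act' (f : TMap A) {z : ℕ → A} {σ : List A} (h : IsInit σ z) :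
    IsInit (f.t σ) (f.act z) := by
  rw [show σ = pre z σ.length from h]
  exact f.isInit_act z _

theorem TMap.act_eq_of_isInit (f : TMap A) {z z' : ℕ → A} (h : ∀ n, IsInit (f.t (pre z n)) z') :
    f.act z = z' :=
  eq_of_isInit (fun n => ⟨f.t (pre z n), by simpa using f.le_length_t (pre z n),
    f.isInit_act z n, h n⟩)

theorem TMap.mul_act (f g : TMap A) (z : ℕ → A) : (f * g).act z = f.act (g.act z) := by
  refine (f * g).act_eq_of_isInit (fun n => ?_)
  rw [TMap.mul_t]
  exact f.isInit_act' (g.isInit_act z n)

theorem TMap.one_act (z : ℕ → A) : (1 : TMap A).act z = z :=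
  (1 : TMap A).act_eq_of_isInit (fun n => by simpa using isInit_pre z n)

end TM2

/-! ## The monoid of iterated maps -/

/-- Points: one infinite sequence for every coordinate. -/
abbrev Pt (A Λ : Type) := Λ → ℕ → A

/-- Two points agree on a set of coordinates. -/
def EqOn {A Λ : Type} (J : Set Λ) (y y' : Pt A Λ) : Prop := ∀ i ∈ J, y i = y' i

/-- Iterated tree maps: a tree map for every coordinate, depending continuously on the previous
coordinates. -/
@[ext (iff := false)]
structure Em (A Λ : Type) [LinearOrder A] [TopologicalSpace A] [LinearOrder Λ] where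
  T : Λ → Pt A Λ → TMap A
  dep : ∀ i y y', EqOn (Iio i) y y' → T i y = T i y'
  cont : ∀ i σ, IsLocallyConstant (fun y => (T i y).t σ)

section EM
variable {A Λ : Type} [LinearOrder A] [TopologicalSpace A] [DiscreteTopology A] [Inhabited A]
  [LinearOrder Λ]

omit [LinearOrder A] [Inhabited A] [LinearOrder Λ] in
theorem isLocallyConstant_pre (i : Λ) (n : ℕ) :
    IsLocallyConstant (fun y : Pt A Λ => pre (y i) n) := by
  rw [IsLocallyConstant.iff_eventually_eq]
  intro y
  have h : ∀ k < n, ∀ᶠ y' in nhds y, y' i k = y i k := by
    intro k _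
    have hc : Continuous (fun y' : Pt A Λ => y' i k) := by fun_prop
    exact hc.continuousAt.eventually (p := fun a => a = y i k) (by simp [nhds_discrete])
  have h2 : ∀ᶠ y' in nhds y, ∀ k < n, y' i k = y i k := by
    have := (Finset.range n).eventually_all.mpr (fun k hk => h k (Finset.mem_range.mp hk))
    filter_upwards [this] with y' hy' k hk using hy' k (Finset.mem_range.mpr hk)
  filter_upwards [h2] with y' hy' using pre_congr hy'

/-- Action of an iterated map on points. -/
def Em.act (H : Em A Λ) (y : Pt A Λ) : Pt A Λ := fun i => (H.T i y).act (y i)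

theorem Em.locConst_t (H : Em A Λ) (i : Λ) {X : Type*} [TopologicalSpace X] {g : X → Pt A Λ}
    (hg : Continuous g) {l : X → List A} (hl : IsLocallyConstant l) :
    IsLocallyConstant (fun x => (H.T i (g x)).t (l x)) := by
  rw [IsLocallyConstant.iff_eventually_eq] at hl ⊢
  intro x
  have h1 := (IsLocallyConstant.iff_eventually_eq _).mp (H.cont i (l x)) (g x)
  filter_upwards [hl x, hg.continuousAt.eventually h1] with x' h2 h3
  rw [h2, h3]

theorem Em.continuous_act (H : Em A Λ) : Continuous H.act := by
  refine continuous_pi (fun i => continuous_pi (fun n => ?_))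
  have h := (H.locConst_t i continuous_id (isLocallyConstant_pre i (n + 1)))
  exact (h.comp (fun l : List A => l.getD n default)).continuous

theorem Em.act_congr (H : Em A Λ) {J : Set Λ} (hJ : IsLowerSet J) {y y' : Pt A Λ}
    (h : EqOn J y y') : EqOn J (H.act y) (H.act y') := by
  intro i hi
  unfold Em.act
  rw [H.dep i y y' (fun j hj => h j (hJ (le_of_lt hj) hi)), h i hi]

instance : Mul (Em A Λ) where
  mul H G :=
    { T := fun i y => H.T i (G.act y) * G.T i y
      dep := fun i y y' h => by
        rw [H.dep i _ _ (G.act_congr (isLowerSet_Iio i) h), G.dep i y y' h]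
      cont := fun i σ => H.locConst_t i G.continuous_act (G.cont i σ) }

instance : One (Em A Λ) where
  one :=
    { T := fun _ _ => 1
      dep := fun _ _ _ _ => rfl
      cont := fun _ σ => IsLocallyConstant.const σ }

@[simp] theorem Em.mul_T (H G : Em A Λ) (i : Λ) (y : Pt A Λ) :
    (H * G).T i y = H.T i (G.act y) * G.T i y := rfl
@[simp] theorem Em.one_T (i : Λ) (y : Pt A Λ) : (1 : Em A Λ).T i y = 1 := rfl

theorem Em.mul_act (H G : Em A Λ) (y : Pt A Λ) : (H * G).act y = H.act (G.act y) := by
  funext i
  unfold Em.act
  rw [Em.mul_T, TMap.mul_act]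
  rfl

theorem Em.one_act (y : Pt A Λ) : (1 : Em A Λ).act y = y := by
  funext i
  exact TMap.one_act _

instance : Monoid (Em A Λ) where
  mul_assoc H G K := by
    refine Em.ext (funext fun i => funext fun y => ?_)
    simp only [Em.mul_T, Em.mul_act, mul_assoc]
  one_mul H := by
    refine Em.ext (funext fun i => funext fun y => ?_)
    simp
  mul_one H := by
    refine Em.ext (funext fun i => funext fun y => ?_)
    simp [Em.one_act]

end EM

end Pool.Agent.F3
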